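import Pool.Agent.H87.L1Alg

open Set Filter Topology Metric TopologicalSpace Pool.Agent.H87.L1Alg

namespace Pool.Agent.Results.MP_2e14e4_lc.NotGd

section
variable (A : Type) [NonUnitalNormedRing A] [NormedSpace ℂ A]

def IsIdl (J : Submodule ℂ A) : Prop := ∀ a, ∀ x ∈ J, a * x ∈ J ∧ x * a ∈ J

/-- closed two-sided ideals -/
def Idl : Type := {K : Submodule ℂ A // IsClosed (K : Set A) ∧ IsIdl A K}

/-- the Wijsman topology -/
noncomputable instance : TopologicalSpace (Idl A) :=
  .induced (fun K (x : A) => infDist x (K.1 : Set A)) inferInstance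

/-- `A / K` is simple: every ideal containing `K` and a point outside `K` is dense -/
def Simple (K : Idl A) : Prop :=
  ∀ b ∉ K.1, ∀ J, IsIdl A J → K.1 ≤ J → b ∈ J → Dense (J : Set A)

/-- every separable Banach algebra is a quotient of `A` -/
def Gen : Prop := ∀ (B : Type) [NonUnitalNormedRing B] [NormedSpace ℂ B] [IsScalarTower ℂ B B]
  [SMulCommClass ℂ B B] [CompleteSpace B] [SeparableSpace B],
  ∃ π : A →L[ℂ] B, (∀ f g, π (f * g) = π f * π g) ∧ Function.Surjective π

/-- `A` has a multiplicative `l1` basis indexed by the free semigroup -/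
def IsL1 : Prop := ∃ δ : FreeSemigroup ℕ → A, (∀ s t, δ s * δ t = δ (s * t)) ∧
  Dense (Submodule.span ℂ (range δ) : Set A) ∧
  ∀ (t : Finset (FreeSemigroup ℕ)) (c : FreeSemigroup ℕ → ℂ),
    ‖∑ s ∈ t, c s • δ s‖ = ∑ s ∈ t, ‖c s‖
end

/-- the convolution algebra `l1` of the free semigroup on countably many generators -/
abbrev P := L (FreeSemigroup ℕ)

theorem dense_of {M : Type} {J : Submodule ℂ (L M)} (hc : IsClosed (J : Set (L M)))
    (h : ∀ m, dl m ∈ J) (f : L M) : f ∈ J :=
  hc.mem_of_tendsto (hasSum_dl f) (.of_forall fun _ => J.sum_mem fun m _ => J.smul_mem _ (h m))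

theorem gen (B : Type) [NonUnitalNormedRing B] [NormedSpace ℂ B] [IsScalarTower ℂ B B]
    [SMulCommClass ℂ B B] [CompleteSpace B] [SeparableSpace B] :
    ∃ π : P →L[ℂ] B, (∀ f g, π (f * g) = π f * π g) ∧ Function.Surjective π := by
  obtain ⟨b, hb⟩ := exists_dense_seq (closedBall (0 : B) 1)
  let u := FreeSemigroup.lift fun n => (b n).1
  have hu : ∀ s, ‖u s‖ ≤ 1 := fun s => by
    induction s with
    | ih1 n => exact mem_closedBall_zero_iff.1 (b n).2
    | ih2 n t a c => rw [map_mul]; exact (norm_mul_le _ _).trans (mul_le_one₀ a (norm_nonneg _) c)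
  refine ⟨lift u 1 hu, fun f g => ext₂ (S := (ContinuousLinearMap.compL ℂ _ _ _ (lift u 1 hu)).comp
    mulL) (T := (ContinuousLinearMap.mul ℂ B).bilinearComp (lift u 1 hu) (lift u 1 hu))
    (fun m n => by simp [mulL_dl]) f g, fun y => ?_⟩
  have st : ∀ y : B, ∃ n, ‖y - (‖y‖ : ℂ) • (b n).1‖ ≤ 1 / 2 * ‖y‖ := fun y => by
    rcases eq_or_ne y 0 with rfl | h
    · exact ⟨0, by simp⟩
    have h0 : (‖y‖ : ℂ) ≠ 0 := by simpa
    obtain ⟨n, hn⟩ := hb.exists_dist_lt ⟨(‖y‖ : ℂ)⁻¹ • y, by simp [norm_smul, h]⟩ one_half_pos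
    refine ⟨n, ?_⟩
    rw [Subtype.dist_eq, dist_eq_norm] at hn
    rw [show y - (‖y‖ : ℂ) • (b n).1 = (‖y‖ : ℂ) • ((‖y‖ : ℂ)⁻¹ • y - (b n).1) by
      rw [smul_sub, smul_inv_smul₀ h0], norm_smul, mul_comm]
    simp only [Complex.norm_real, norm_norm]; gcongr
  choose n hn using st
  let z : ℕ → B := fun k => (fun y => y - (‖y‖ : ℂ) • (b (n y)).1)^[k] y
  have zs : ∀ k, z (k + 1) = z k - (‖z k‖ : ℂ) • (b (n (z k))).1 := fun k =>
    Function.iterate_succ_apply' _ _ _
  have zl : ∀ k, ‖z k‖ ≤ ‖y‖ * (1 / 2) ^ k := fun k => by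
    induction k with
    | zero => simp [z]
    | succ k ih => rw [zs, pow_succ]; linarith [hn (z k)]
  have sm : Summable fun k => ‖z k‖ :=
    .of_nonneg_of_le (fun _ => norm_nonneg _) zl (summable_geometric_two.mul_left _)
  have s2 : Summable fun k => (‖z k‖ : ℂ) • dl (FreeSemigroup.of (n (z k))) :=
    .of_norm (by simpa [norm_smul] using sm)
  refine ⟨_, tendsto_nhds_unique (s2.hasSum.mapL (lift u 1 hu)).tendsto_sum_nat ?_⟩
  have : ∀ N, ∑ k ∈ Finset.range N, lift u 1 hu ((‖z k‖ : ℂ) • dl (FreeSemigroup.of (n (z k)))) =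
      y - z N := fun N => by
    induction N with
    | zero => simp [z]
    | succ N ih => rw [Finset.sum_range_succ, ih, zs]; simp [u]; abel
  simp only [this]
  simpa using (tendsto_zero_iff_norm_tendsto_zero.2 sm.tendsto_atTop_zero).const_sub y

abbrev X := ℕ → Bool
abbrev E := L (ℕ × ℕ)

def cnt (x : X) : ℕ → ℕ := Nat.count (x · = true)

def N (x : X) (j r : ℕ) : Prop := x j = true ∧ x r = true ∧ cnt x r = cnt x j + 1

theorem N.lt {x : X} {j r : ℕ} (h : N x j r) : j < r :=
  Nat.lt_of_count_lt_count (p := (x · = true)) ((Nat.lt_succ_self _).trans_eq h.2.2.symm)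

theorem N.r {x : X} {j r r' : ℕ} (h : N x j r) : N x j r' ↔ r' = r :=
  ⟨fun g => Nat.count_injective g.2.1 h.2.1 (g.2.2.trans h.2.2.symm), fun e => e ▸ h⟩

theorem N.l {x : X} {j j' r : ℕ} (h : N x j r) : N x j' r ↔ j' = j :=
  ⟨fun g => Nat.count_injective g.1 h.1 (Nat.succ_injective (g.2.2.symm.trans h.2.2)),
    fun e => e ▸ h⟩

open Classical in
noncomputable def p (x : X) (j r : ℕ) : ℂ := if j = r then 1 / 2 else if N x j r then -1 else 0

theorem p_le (x : X) (j r : ℕ) : ‖p x j r‖ ≤ 1 := by unfold p; split_ifs <;> norm_num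

theorem p_cont (j r : ℕ) : Continuous fun x => p x j r := by
  classical
  have c : ∀ r, Continuous fun x => cnt x r := fun r => by
    induction r with
    | zero => simpa [cnt] using continuous_const
    | succ r ih =>
      simp only [cnt, Nat.count_succ]
      exact ih.add ((continuous_of_discreteTopology (f := fun b : Bool =>
        if b = true then 1 else 0)).comp (continuous_apply r))
  exact (continuous_of_discreteTopology (f := fun q : (Bool × Bool) × ℕ × ℕ => if j = r then
    (1 / 2 : ℂ) else if q.1.1 = true ∧ q.1.2 = true ∧ q.2.1 = q.2.2 + 1 then -1 else 0)).comp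
    (((continuous_apply j).prodMk (continuous_apply r)).prodMk ((c r).prodMk (c j))) |>.congr
    fun x => by simp only [Function.comp_apply, p, N]; congr

@[ext] structure R (x : X) where
  i : ℕ
  c : ℂ
  j : ℕ

noncomputable instance (x : X) : Semigroup (R x) where
  mul a b := ⟨a.i, a.c * p x a.j b.i * b.c, b.j⟩
  mul_assoc a b c := R.ext rfl (by
    show a.c * p x a.j b.i * b.c * p x b.j c.i * c.c = a.c * p x a.j b.i * (b.c * p x b.j c.i * c.c)
    ring) rfl

theorem mul_R {x : X} (a b : R x) : a * b = ⟨a.i, a.c * p x a.j b.i * b.c, b.j⟩ := rfl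

noncomputable def φ (x : X) : FreeSemigroup ℕ →ₙ* R x :=
  FreeSemigroup.lift fun n => ⟨n.unpair.1, 1, n.unpair.2⟩

theorem φ_prop (s : FreeSemigroup ℕ) : (∀ x, ‖(φ x s).c‖ ≤ 1) ∧ (Continuous fun x => (φ x s).c) ∧
    ∃ i j, ∀ x, (φ x s).i = i ∧ (φ x s).j = j := by
  induction s with
  | ih1 n => exact ⟨fun x => by simp [φ], by simpa [φ] using continuous_const, _, _,
      fun _ => ⟨rfl, rfl⟩⟩
  | ih2 n t a b =>
    obtain ⟨a1, a2, i, j, a3⟩ := a
    obtain ⟨b1, b2, k, l, b3⟩ := b
    simp only [map_mul, mul_R, a3, b3, norm_mul]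
    exact ⟨fun x => mul_le_one₀ (mul_le_one₀ (a1 x) (norm_nonneg _) (p_le ..)) (norm_nonneg _)
      (b1 x), (a2.mul (p_cont _ _)).mul b2, i, l, fun _ => ⟨rfl, rfl⟩⟩

theorem sm_le {c : ℂ} (h : ‖c‖ ≤ 1) (q : ℕ × ℕ) : ‖c • dl q‖ ≤ 1 := by simpa [norm_smul]

noncomputable def π (x : X) : P →L[ℂ] E :=
  lift (fun s => (φ x s).c • dl ((φ x s).i, (φ x s).j)) 1 fun s => sm_le ((φ_prop s).1 x) _

noncomputable def σ : E →L[ℂ] P := lift (fun q => dl (.of (q.1.pair q.2))) 1 (by simp)

noncomputable def m (x : X) : E →L[ℂ] E →L[ℂ] E :=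
  lift (fun a => lift (fun b => p x a.2 b.1 • dl (a.1, b.2)) 1 fun _ => sm_le (p_le ..) _) 1
    fun _ => norm_lift_le _ _ zero_le_one _

theorem πσ (x : X) (a : E) : π x (σ a) = a :=
  congr($(clm_ext (S := (π x).comp σ) (T := .id ℂ E) fun q => by simp [π, σ, φ]) a)

theorem π_mul (x : X) (f g : P) : π x (f * g) = m x (π x f) (π x g) :=
  ext₂ (S := (ContinuousLinearMap.compL ℂ _ _ _ (π x)).comp mulL)
    (T := (m x).bilinearComp (π x) (π x))
    (fun s t => by simp [mulL_dl, π, m, mul_R, smul_smul]; ring_nf) f g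

noncomputable def Φ (x : X) : Idl P := ⟨(π x).ker, (π x).isClosed_ker, fun a f hf => by
  have : π x f = 0 := hf
  exact ⟨(π_mul x a f).trans (by simp [this]), (π_mul x f a).trans (by simp [this])⟩⟩

theorem mem_Φ {x : X} {f : P} : f ∈ (Φ x).1 ↔ π x f = 0 := Iff.rfl

theorem Φ_cont : Continuous Φ := by
  refine continuous_induced_rng.2 (continuous_pi fun f => ?_)
  have e : ∀ x, ‖π x f‖ = infDist f ((Φ x).1 : Set P) := fun x => by
    refine le_antisymm ((le_infDist ⟨0, zero_mem _⟩).2 fun k hk => ?_)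
      ((infDist_le_dist_of_mem (y := f - σ (π x f)) (mem_Φ.2 (by simp [πσ]))).trans ?_)
    · have := lift_le _ _ (fun s => sm_le ((φ_prop s).1 x) ((φ x s).i, (φ x s).j)) (f - k)
      rw [one_mul] at this
      rw [dist_eq_norm, ← sub_zero (π x f), ← mem_Φ.1 hk, ← map_sub]; exact this
    · rw [dist_eq_norm, sub_sub_cancel]
      exact (lift_le _ _ _ (π x f)).trans_eq (one_mul _)
  refine Continuous.congr (Continuous.norm (continuous_tsum (fun s => ?_) (hasSum_norm f).summable
    fun s x => ?_)) e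
  · obtain ⟨-, a, i, j, b⟩ := φ_prop s
    simp only [b]
    exact continuous_const.fun_smul (a.fun_smul continuous_const)
  · rw [norm_smul]; exact mul_le_of_le_one_right (norm_nonneg _) (sm_le ((φ_prop s).1 x) _)

theorem leftG {x : X} {j s : ℕ} (F : E →L[ℂ] ℂ)
    (h : ∀ r t, F (dl (r, t)) = if s = t then p x j r else 0) (k k' : ℕ) (a : E) :
    (m x (dl (k, j)) a).ap (k', s) = if k' = k then F a else 0 := by
  have := congr($(clm_ext (S := (apL (k', s)).comp (m x (dl (k, j))))
    (T := (if k' = k then 1 else 0 : ℂ) • F) fun ⟨r, t⟩ => by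
      simp only [m, ContinuousLinearMap.comp_apply, lift_dl, apL_apply, smul_ap, dl_ap,
        smul_apply, h, Prod.mk.injEq, smul_eq_mul]
      split_ifs <;> simp_all) a)
  simpa only [ContinuousLinearMap.comp_apply, apL_apply, smul_apply, smul_eq_mul, ite_mul,
    one_mul, zero_mul] using this

theorem left2 {x : X} {j : ℕ} (h : ∀ r, ¬ N x j r) (k k' s : ℕ) (a : E) :
    (m x (dl (k, j)) a).ap (k', s) = if k' = k then 1 / 2 * a.ap (j, s) else 0 :=
  leftG ((1 / 2 : ℂ) • apL (j, s)) (fun r t => by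
    simp only [smul_apply, apL_apply, dl_ap, p, h, Prod.mk.injEq, smul_eq_mul]
    split_ifs <;> simp_all) k k' a

theorem left3 {x : X} {j r : ℕ} (h : N x j r) (k k' s : ℕ) (a : E) :
    (m x (dl (k, j)) a).ap (k', s) = if k' = k then 1 / 2 * a.ap (j, s) - a.ap (r, s) else 0 :=
  leftG ((1 / 2 : ℂ) • apL (j, s) - apL (r, s)) (fun r t => by
    have := h.lt
    simp only [sub_apply, smul_apply, apL_apply, dl_ap, p, h.r, Prod.mk.injEq, smul_eq_mul]
    split_ifs <;> first | omega | simp) k k' a

theorem linj {x : X} (hx : {n | x n = true}.Finite) {a : E} (h : ∀ j, m x (dl (0, j)) a = 0) :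
    a = 0 := by
  obtain ⟨M, hM⟩ := hx.bddAbove
  have : ∀ d j s, M ≤ j + d → a.ap (j, s) = 0 := fun d => by
    induction d with
    | zero =>
      intro j s e
      have := left2 (x := x) (j := j) (fun r g => by have := hM g.2.1; have := g.lt; omega) 0 0 s a
      simpa [h] using this
    | succ d ih =>
      intro j s e
      by_cases g : ∃ r, N x j r
      · obtain ⟨r, g⟩ := g
        simpa [h, ih r s (by have := g.lt; omega)] using left3 g 0 0 s a
      · simpa [h] using left2 (not_exists.1 g) 0 0 s a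
  exact L.ext' fun q => this M q.1 q.2 (by omega)

theorem rinj {x : X} {a : E} (h : ∀ i, m x a (dl (i, 0)) = 0) : a = 0 := by
  have : ∀ i r, a.ap (r, i) = 0 := fun i => by
    induction i using Nat.strong_induction_on with
    | _ i ih =>
      intro r
      by_cases g : ∃ s, N x s i
      · obtain ⟨s, g⟩ := g
        have := congr($(clm_ext (S := (apL (r, 0)).comp ((m x).flip (dl (i, 0))))
          (T := (1 / 2 : ℂ) • apL (r, i) - apL (r, s)) fun ⟨u, v⟩ => by
            have := g.lt
            simp only [m, ContinuousLinearMap.comp_apply, ContinuousLinearMap.flip_apply, lift_dl,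
              apL_apply, smul_ap, dl_ap, sub_apply, smul_apply, p, g.l, Prod.mk.injEq, smul_eq_mul,
              and_true]
            split_ifs <;> first | omega | simp) a)
        simpa [h, ih s g.lt] using this
      · have := congr($(clm_ext (S := (apL (r, 0)).comp ((m x).flip (dl (i, 0))))
          (T := (1 / 2 : ℂ) • apL (r, i)) fun ⟨u, v⟩ => by
            simp only [m, ContinuousLinearMap.comp_apply, ContinuousLinearMap.flip_apply, lift_dl,
              apL_apply, smul_ap, dl_ap, smul_apply, p, not_exists.1 g, Prod.mk.injEq, smul_eq_mul,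
              and_true, if_false]
            split_ifs <;> first | omega | simp) a)
        simpa [h] using this
  exact L.ext' fun q => this q.2 q.1

theorem simple {x : X} (hx : {n | x n = true}.Finite) : Simple P (Φ x) := fun b hb J hJ h1 h2 => by
  let Λ : ℕ → ℕ → E →L[ℂ] ℂ := fun j i => lift (fun q => p x j q.1 * p x q.2 i) 1 fun q => by
    rw [norm_mul]; exact mul_le_one₀ (p_le ..) (norm_nonneg _) (p_le ..)
  have e : ∀ k j i l a, m x (m x (dl (k, j)) a) (dl (i, l)) = Λ j i a • dl (k, l) :=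
    fun k j i l a => congr($(clm_ext (S := ((m x).flip (dl (i, l))).comp (m x (dl (k, j))))
      (T := (Λ j i).smulRight (dl (k, l))) fun q => by simp [m, Λ, smul_smul]) a)
  obtain ⟨j, i, h⟩ : ∃ j i, Λ j i (π x b) ≠ 0 := by
    by_contra! h
    exact hb (mem_Φ.2 (linj hx fun j => rinj fun i => by rw [e, h, zero_smul]))
  have a : ∀ q, σ (dl q) ∈ J := fun ⟨k, l⟩ => by
    have u := (hJ (σ (dl (i, l))) _ (hJ (σ (dl (k, j))) b h2).1).2
    have v := h1 (mem_Φ.2 (show π x (σ (Λ j i (π x b) • dl (k, l)) -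
      σ (dl (k, j)) * b * σ (dl (i, l))) = 0 by rw [map_sub, π_mul, π_mul, πσ, πσ, πσ, e, sub_self]))
    have := J.add_mem v u
    rwa [sub_add_cancel, map_smul, J.smul_mem_iff h] at this
  intro f
  have := dense_of (J := J.topologicalClosure.comap σ.toLinearMap)
    (J.isClosed_topologicalClosure.preimage σ.continuous)
    (fun q => J.le_topologicalClosure (a q)) (π x f)
  have := J.topologicalClosure.add_mem this
    (J.le_topologicalClosure (h1 (mem_Φ.2 (show π x (f - σ (π x f)) = 0 by simp [πσ]))))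
  rwa [ContinuousLinearMap.coe_coe, add_sub_cancel] at this

theorem not_simple {x : X} (hx : {n | x n = true}.Infinite) : ¬ Simple P (Φ x) := fun h => by
  classical
  let v : ℕ × ℕ → ℂ := fun q => if q.2 = 0 ∧ x q.1 = true then (1 / 2) ^ cnt x q.1 else 0
  have c := Nat.count_nth_of_infinite hx
  have d := Nat.nth_mem_of_infinite hx
  have s : Summable fun q => ‖v q‖ := by
    rw [← Function.Injective.summable_iff (g := fun k => (Nat.nth (x · = true) k, 0))
      (fun _ _ e => Nat.nth_injective hx (Prod.ext_iff.1 e).1) fun q hq => ?_]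
    · simpa [v, Function.comp_def, c, d, cnt] using summable_geometric_two
    · rw [norm_eq_zero]
      exact if_neg fun ⟨a, b⟩ => hq ⟨cnt x q.1, Prod.ext (Nat.nth_count b) a.symm⟩
  let a : E := ⟨v, memℓp_gen (by simpa using s)⟩
  have av : ∀ q, a.ap q = v q := fun _ => rfl
  have z : ∀ y, m x y a = 0 := fun y => congr($(clm_ext (S := (m x).flip a) (T := 0)
    fun ⟨k, j⟩ => L.ext' fun ⟨k', t⟩ => by
      show (m x (dl (k, j)) a).ap _ = 0
      by_cases g : x j = true
      · have n : N x j (Nat.nth (x · = true) (cnt x j + 1)) := ⟨g, d _, c _⟩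
        rw [left3 n, av, av]
        simp only [v, g, d, n.2.2, pow_succ]
        split_ifs <;> ring
      · rw [left2 fun r e => g e.1, av]; simp [v, g]) y)
  let J : Submodule ℂ P := ⨅ g : P, ((π x).comp (mulL g)).ker
  have mJ : ∀ f, f ∈ J ↔ ∀ g, π x (g * f) = 0 := fun f => Submodule.mem_iInf _
  have := h (σ a) (fun e => by
      have := congrArg (·.ap (Nat.nth (x · = true) 0, 0)) ((πσ x a).symm.trans (mem_Φ.1 e))
      simp [av, v, d] at this) J
    (fun g f hf => by
      simp only [mJ] at hf ⊢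
      exact ⟨fun y => by rw [← mul_assoc, hf], fun y => by rw [← mul_assoc, π_mul, hf]; simp⟩)
    (fun f hf => (mJ f).2 fun g => by rw [π_mul, mem_Φ.1 hf, map_zero])
    ((mJ _).2 fun g => by rw [π_mul, πσ, z])
  have cl : IsClosed (J : Set P) := by
    simp only [J, Submodule.coe_iInf]
    exact isClosed_iInter fun g => ContinuousLinearMap.isClosed_ker _
  have := (mJ _).1 (cl.closure_subset (this (σ (dl (0, 0))))) (σ (dl (0, 0)))
  rw [π_mul, πσ] at this
  have := congrArg (·.ap (0, 0)) this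
  simp [m, p, dl_ap] at this

theorem result : ∃ (A : Type) (_ : NonUnitalNormedRing A) (_ : NormedSpace ℂ A)
    (_ : IsScalarTower ℂ A A) (_ : SMulCommClass ℂ A A), CompleteSpace A ∧ SeparableSpace A ∧
    IsL1 A ∧ Gen A ∧ ¬ IsGδ {K : Idl A | Simple A K} := by
  have D : Dense (Submodule.span ℂ (range (dl (M := FreeSemigroup ℕ))) : Set P) := fun f =>
    dense_of (J := (Submodule.span ℂ (range (dl (M := FreeSemigroup ℕ)))).topologicalClosure)
      (Submodule.isClosed_topologicalClosure _) (fun s =>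
      Submodule.le_topologicalClosure _ (Submodule.subset_span ⟨s, rfl⟩)) f
  refine ⟨P, inferInstance, inferInstance, inferInstance, inferInstance, inferInstance, ?_,
    ⟨dl, dl_mul, D, fun t c => ?_⟩, gen, fun h => ?_⟩
  · have : Countable (FreeSemigroup ℕ) := Function.Injective.countable
      (f := fun s => (s.head, s.tail)) fun _ _ e =>
        FreeSemigroup.ext (Prod.ext_iff.1 e).1 (Prod.ext_iff.1 e).2
    exact isSeparable_univ_iff.1 (((countable_range dl).isSeparable.span (R := ℂ)).closure.mono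
      fun f _ => D f)
  · have e : ∀ u, (∑ s ∈ t, c s • dl s).ap u = if u ∈ t then c u else 0 := fun u => by
      rw [← apL_apply, map_sum]; simp [dl_ap]
    refine (hasSum_norm _).unique ?_
    rw [← Finset.sum_congr rfl (f := fun u => ‖(∑ s ∈ t, c s • dl s).ap u‖) fun u g => by
      simp [e, g]]
    exact hasSum_sum_of_ne_finset_zero fun u g => by simp [e, g]
  · have t : ∀ (x : X) (b : Bool), Tendsto (fun (M n : ℕ) => if n < M then x n else b) atTop
        (𝓝 x) := fun x b => tendsto_pi_nhds.2 fun n => tendsto_const_nhds.congr'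
          ((eventually_gt_atTop n).mono fun M hM => by simp [hM])
    have g : IsGδ (⋂ M : ℕ, ⋃ n, ⋃ _ : M ≤ n, {x : X | x n = true}) := .iInter_of_isOpen fun M =>
      isOpen_iUnion fun n => isOpen_iUnion fun _ =>
        (isOpen_discrete {true}).preimage (f := fun x : X => x n) (continuous_apply n)
    obtain ⟨x, a, b⟩ := (Dense.inter_of_Gδ (h.preimage Φ_cont) g
      (fun x => mem_closure_of_tendsto (t x false) (.of_forall fun M => simple
        ((finite_lt_nat M).subset fun n hn => by by_contra e; simp_all)))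
      fun x => mem_closure_of_tendsto (t x true) (.of_forall fun M => by
        simp only [mem_iInter, mem_iUnion]
        exact fun K => ⟨K + M, by omega, by simp⟩)).nonempty
    simp only [mem_iInter, mem_iUnion] at b
    refine not_simple (infinite_of_forall_exists_gt fun n => ?_) a
    obtain ⟨k, u, w⟩ := b (n + 1)
    exact ⟨k, w, u⟩

end Pool.Agent.Results.MP_2e14e4_lc.NotGd
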